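import Pool.Agent.Helper47.TW.WLim
import Pool.Agent.Helper98.ZA.Stmts

/-!
Row ZCO of the sheet ZA (MP_7a8f48_an): correlations along orbits.
-/

open MeasureTheory Filter Topology Finset
open scoped ComplexConjugate

namespace Pool.Agent.Helper34.ZA

open Pool.Agent.Helper98.ZA (ST_ZCO)

theorem sum_mul (a : ℕ → ℂ) (m K : ℕ) :
    ∑ n ∈ range (m * K), a n = ∑ r ∈ range m, ∑ k ∈ range K, a (m * k + r) := by
  rw [Finset.sum_comm]
  induction K with
  | zero => simp
  | succ K ih =>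
    rw [Nat.mul_succ, Finset.sum_range_add, ih, Finset.sum_range_succ]

theorem sum_range_icc (f : ℕ → ℂ) (K : ℕ) :
    ∑ k ∈ range K, f k = f 0 - f K + ∑ k ∈ Finset.Icc 1 K, f k := by
  have h6 : ∑ i ∈ range (K + 1), f i = f 0 + ∑ i ∈ Finset.Icc 1 K, f i := by
    rw [Finset.sum_range_succ', add_comm]
    congr 1
    rw [Finset.range_eq_Ico, Finset.sum_Ico_add' f 0 K 1]
    rfl
  rw [Finset.sum_range_succ] at h6
  linear_combination h6

/-- **ZCO**. -/
theorem st_ZCO : ST_ZCO := by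
  intro Y _ _ _ _ S p q m G c ε hS hm hε hc y
  set a : ℕ → ℂ := fun n => G (S^[p * n] y) * conj (G (S^[q * n] y)) with ha
  obtain ⟨B, hB⟩ := isCompact_univ.exists_bound_of_continuousOn G.continuous.continuousOn
  have hB0 : 0 ≤ B := (norm_nonneg _).trans (hB y (Set.mem_univ y))
  have haB : ∀ n, ‖a n‖ ≤ B * B := by
    intro n
    simp only [ha]
    rw [norm_mul, RCLike.norm_conj]
    exact mul_le_mul (hB _ (Set.mem_univ _)) (hB _ (Set.mem_univ _)) (norm_nonneg _) hB0
  have hτ : Continuous (Prod.map S^[p * m] S^[q * m]) := (hS.iterate _).prodMap (hS.iterate _)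
  have hΨ : Continuous fun z : Y × Y => G z.1 * conj (G z.2) :=
    (G.continuous.comp continuous_fst).mul
      (Complex.continuous_conj.comp (G.continuous.comp continuous_snd))
  have key : ∀ r, ∀ᶠ K : ℕ in atTop,
      ‖∑ k ∈ Finset.Icc 1 K, a (m * k + r)‖ ≤ (c + ε / 2) * K := by
    intro r
    have h := Pool.Agent.Helper47.TW.wlim_gen hτ (S^[p * r] y, S^[q * r] y) _ hΨ c hc (ε / 2)
      (half_pos hε)
    have e : ∀ k, (fun z : Y × Y => G z.1 * conj (G z.2))
        ((Prod.map S^[p * m] S^[q * m])^[k] (S^[p * r] y, S^[q * r] y)) = a (m * k + r) := by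
      intro k
      have e1 : (Prod.map S^[p * m] S^[q * m])^[k] (S^[p * r] y, S^[q * r] y) =
          (S^[p * (m * k + r)] y, S^[q * (m * k + r)] y) := by
        rw [Prod.map_iterate]
        simp only [Prod.map_apply]
        rw [← Function.iterate_mul, ← Function.iterate_mul, ← Function.iterate_add_apply,
          ← Function.iterate_add_apply]
        congr 3 <;> ring
      simp only [e1, ha]
    simp only [e] at h
    exact h
  have hall : ∀ᶠ K : ℕ in atTop, ∀ r ∈ range m,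
      ‖∑ k ∈ Finset.Icc 1 K, a (m * k + r)‖ ≤ (c + ε / 2) * K :=
    (Finset.eventually_all (range m)).2 fun r _ => key r
  obtain ⟨K₀, hK₀⟩ := eventually_atTop.1 hall
  have hce : 0 ≤ c + ε / 2 := by
    have h1 := hK₀ (K₀ + 1) (by omega) 0 (mem_range.2 (by omega))
    have h2 : 0 ≤ (c + ε / 2) * ((K₀ + 1 : ℕ) : ℝ) := (norm_nonneg _).trans h1
    have h3 : (0 : ℝ) < ((K₀ + 1 : ℕ) : ℝ) := by positivity
    exact nonneg_of_mul_nonneg_left h2 h3
  have hlarge : ∀ᶠ M : ℕ in atTop,
      ((c + ε / 2) + B * B * (1 + 3 * m)) / (ε / 2) ≤ (M : ℝ) :=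
    (tendsto_natCast_atTop_atTop (R := ℝ)).eventually_ge_atTop _
  filter_upwards [hlarge, eventually_ge_atTop (m * (K₀ + 1))] with M hM1 hM2
  have hm0 : 0 < m := hm
  set K : ℕ := (M + 1) / m with hK
  have hKK : K₀ ≤ K := by
    rw [hK, Nat.le_div_iff_mul_le hm0]
    nlinarith
  have hmK : m * K ≤ M + 1 := Nat.mul_div_le _ _
  set R : ℕ := (M + 1) % m with hR
  have hRm : R < m := Nat.mod_lt _ hm0
  have hMK : M + 1 = m * K + R := (Nat.div_add_mod _ _).symm
  have e1 : ∑ n ∈ Finset.Icc 1 M, a n = ∑ n ∈ range (M + 1), a n - a 0 := by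
    rw [Finset.sum_range_succ, sum_range_icc a M]
    ring
  have e2 : ∑ n ∈ range (M + 1), a n = ∑ n ∈ range (m * K), a n +
      ∑ n ∈ range R, a (m * K + n) := by
    rw [hMK, Finset.sum_range_add]
  have b1 : ‖∑ n ∈ range R, a (m * K + n)‖ ≤ m * (B * B) := by
    refine (norm_sum_le_of_le _ fun n _ => haB _).trans ?_
    rw [Finset.sum_const, card_range, nsmul_eq_mul]
    exact mul_le_mul_of_nonneg_right (by exact_mod_cast hRm.le) (mul_nonneg hB0 hB0)
  have b2 : ‖∑ n ∈ range (m * K), a n‖ ≤ m * (2 * (B * B) + (c + ε / 2) * K) := by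
    rw [sum_mul]
    have h : ∀ r ∈ range m, ‖∑ k ∈ range K, a (m * k + r)‖ ≤ 2 * (B * B) + (c + ε / 2) * K := by
      intro r hr
      rw [sum_range_icc (fun k => a (m * k + r)) K]
      refine (norm_add_le _ _).trans (add_le_add ((norm_sub_le _ _).trans ?_) (hK₀ K hKK r hr))
      have h1 := haB (m * 0 + r)
      have h2 := haB (m * K + r)
      linarith
    refine (norm_sum_le_of_le _ h).trans ?_
    rw [Finset.sum_const, card_range, nsmul_eq_mul]
  have b3 := haB 0
  have hMf : ((m : ℝ) * K) ≤ M + 1 := by exact_mod_cast hmK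
  rw [div_le_iff₀ (half_pos hε)] at hM1
  calc ‖∑ n ∈ Finset.Icc 1 M, a n‖
      = ‖∑ n ∈ range (m * K), a n + ∑ n ∈ range R, a (m * K + n) - a 0‖ := by rw [e1, e2]
    _ ≤ m * (2 * (B * B) + (c + ε / 2) * K) + m * (B * B) + B * B :=
        (norm_sub_le _ _).trans (add_le_add ((norm_add_le _ _).trans (add_le_add b2 b1)) b3)
    _ = (c + ε / 2) * (m * K) + B * B * (1 + 3 * m) := by ring
    _ ≤ (c + ε / 2) * (M + 1) + B * B * (1 + 3 * m) := by
        have := mul_le_mul_of_nonneg_left hMf hce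
        linarith
    _ ≤ (c + ε) * M := by nlinarith

end Pool.Agent.Helper34.ZA
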